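import Mathlib

/-!
# Exact degrees of coefficients of rank 2 cluster scattering diagrams
-/

namespace Pool.Agent.Results.MP_af966c_co.ExactDegrees

/-- Polynomials in the two indeterminates `b = X 0` and `c = X 1`. -/
abbrev BC := MvPolynomial (Fin 2) ℚ

/-- The binomial coefficient `x (x - 1) ... (x - s + 1) / s!`. -/
noncomputable def binom {A : Type*} [CommRing A] [Algebra ℚ A] (x : A) (s : ℕ) : A :=
  algebraMap ℚ A (1 / (s.factorial : ℚ)) * ∏ i ∈ Finset.range s, (x - (i : A))

/-- The index set of the sum defining `T`: the sequences `(s_1, ..., s_l)` of natural numbers with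
`s_1 + 2 s_2 + ... + l s_l = l` (the entry `s_(j+1)` is `s j`). -/
def seqs (l : ℕ) : Finset (Fin l → ℕ) :=
  (Fintype.piFinset (fun _ : Fin l => Finset.range (l + 1))).filter
    (fun s => ∑ j : Fin l, ((j : ℕ) + 1) * s j = l)

/-- The polynomial `T_n` of `ℚ[b, c][G]`; the variable of the outer polynomial ring is `G`. -/
noncomputable def T (U : ℕ → ℕ → BC) (n₁ n₂ : ℕ) : Polynomial BC :=
  ∑ s ∈ seqs (Nat.gcd n₁ n₂), ∏ j : Fin (Nat.gcd n₁ n₂),
    binom (Polynomial.X * Polynomial.C
      (U (((j : ℕ) + 1) * (n₁ / Nat.gcd n₁ n₂)) (((j : ℕ) + 1) * (n₂ / Nat.gcd n₁ n₂)))) (s j)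

/-- The facts known for the exponent polynomials `U_n(c, b)`: they are nonzero polynomials with
`deg_b = n₂ - 1` and `deg_c = n₁ - 1`, and their values at positive integers are nonnegative. -/
structure Known (U : ℕ → ℕ → BC) : Prop where
  ne : ∀ n₁ n₂, 1 ≤ n₁ → 1 ≤ n₂ → U n₁ n₂ ≠ 0
  degb : ∀ n₁ n₂, 1 ≤ n₁ → 1 ≤ n₂ → (U n₁ n₂).degreeOf 0 = n₂ - 1
  degc : ∀ n₁ n₂, 1 ≤ n₁ → 1 ≤ n₂ → (U n₁ n₂).degreeOf 1 = n₁ - 1
  nonneg : ∀ n₁ n₂, 1 ≤ n₁ → 1 ≤ n₂ → ∀ b c : ℕ, 1 ≤ b → 1 ≤ c →
    0 ≤ MvPolynomial.eval ![(b : ℚ), (c : ℚ)] (U n₁ n₂)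

open Polynomial

theorem mem_seqs {l : ℕ} {s : Fin l → ℕ} :
    s ∈ seqs l ↔ ∑ j : Fin l, ((j : ℕ) + 1) * s j = l := by
  unfold seqs
  rw [Finset.mem_filter, Fintype.mem_piFinset]
  constructor
  · exact fun h => h.2
  · intro h
    refine ⟨fun j => ?_, h⟩
    rw [Finset.mem_range]
    have h1 : ((j : ℕ) + 1) * s j ≤ ∑ j : Fin l, ((j : ℕ) + 1) * s j :=
      Finset.single_le_sum (f := fun j : Fin l => ((j : ℕ) + 1) * s j)
        (fun i _ => Nat.zero_le _) (Finset.mem_univ j)
    have h2 : s j ≤ ((j : ℕ) + 1) * s j := Nat.le_mul_of_pos_left _ (Nat.succ_pos _)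
    omega

/-! ### the comparison homomorphism -/

section hom

variable (v : Fin 2)

/-- view a polynomial in `b, c` as a polynomial in the variable `v` over the polynomials in the
other variable -/
noncomputable def phi0 : BC →+* ℚ[X][X] :=
  (MvPolynomial.aeval (fun i => if i = v then (X : ℚ[X][X]) else C (X : ℚ[X])) :
    BC →ₐ[ℚ] ℚ[X][X]).toRingHom

theorem phi0_monomial (m : Fin 2 →₀ ℕ) (a : ℚ) :
    phi0 v (MvPolynomial.monomial m a) = C (C a * X ^ (m (1 - v))) * X ^ (m v) := by
  have h : phi0 v (MvPolynomial.monomial m a) =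
      (MvPolynomial.aeval (fun i => if i = v then (X : ℚ[X][X]) else C (X : ℚ[X])) :
        BC →ₐ[ℚ] ℚ[X][X]) (MvPolynomial.monomial m a) := rfl
  rw [h, MvPolynomial.aeval_monomial, Finsupp.prod_fintype _ _ (fun i => pow_zero _),
    Fin.prod_univ_two]
  have ha : (algebraMap ℚ ℚ[X][X]) a = C (C a) := rfl
  rw [ha]
  fin_cases v
  · simp [Polynomial.C_mul, Polynomial.C_pow]
    ring
  · simp [Polynomial.C_mul, Polynomial.C_pow]
    ring

theorem phi0_coeff (q : BC) (d e : ℕ) :
    ((phi0 v q).coeff d).coeff e =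
      MvPolynomial.coeff (Finsupp.single v d + Finsupp.single (1 - v) e) q := by
  induction q using MvPolynomial.induction_on' with
  | monomial m a =>
    rw [phi0_monomial, MvPolynomial.coeff_monomial, Polynomial.coeff_C_mul,
      Polynomial.coeff_X_pow]
    have hv : (1 - v : Fin 2) ≠ v := by fin_cases v <;> decide
    have key : (m = Finsupp.single v d + Finsupp.single (1 - v) e) ↔ (d = m v ∧ e = m (1 - v)) := by
      constructor
      · intro h
        subst h
        simp [Finsupp.add_apply, Finsupp.single_apply, hv, hv.symm]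
      · rintro ⟨rfl, rfl⟩
        ext i
        have hi : i = v ∨ i = 1 - v := by fin_cases v <;> fin_cases i <;> simp
        rcases hi with rfl | rfl
        · simp [Finsupp.add_apply, Finsupp.single_apply, hv]
        · simp [Finsupp.add_apply, Finsupp.single_apply, hv.symm]
    by_cases h1 : d = m v
    · by_cases h2 : e = m (1 - v)
      · rw [if_pos h1, if_pos (key.mpr ⟨h1, h2⟩)]
        simp [h2]
      · rw [if_pos h1, if_neg (fun h => h2 (key.mp h).2)]
        simp [Polynomial.coeff_X_pow, h2]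
    · rw [if_neg h1, if_neg (fun h => h1 (key.mp h).1)]
      simp
  | add p q hp hq =>
    rw [map_add, Polynomial.coeff_add, Polynomial.coeff_add, hp, hq, MvPolynomial.coeff_add]

theorem eq_split (m : Fin 2 →₀ ℕ) :
    m = Finsupp.single v (m v) + Finsupp.single (1 - v) (m (1 - v)) := by
  have hv : (1 - v : Fin 2) ≠ v := by fin_cases v <;> decide
  ext i
  have hi : i = v ∨ i = 1 - v := by fin_cases v <;> fin_cases i <;> simp
  rcases hi with rfl | rfl
  · simp [Finsupp.add_apply, Finsupp.single_apply, hv]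
  · simp [Finsupp.add_apply, Finsupp.single_apply, hv.symm]

theorem degreeOf_eq (q : BC) : q.degreeOf v = (phi0 v q).natDegree := by
  apply le_antisymm
  · rw [MvPolynomial.degreeOf_le_iff]
    intro m hm
    by_contra hlt
    push Not at hlt
    rw [MvPolynomial.mem_support_iff] at hm
    apply hm
    rw [eq_split v m, ← phi0_coeff, Polynomial.coeff_eq_zero_of_natDegree_lt hlt,
      Polynomial.coeff_zero]
  · rw [Polynomial.natDegree_le_iff_coeff_eq_zero]
    intro N hN
    ext e
    rw [phi0_coeff, Polynomial.coeff_zero]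
    by_contra hne
    have hm := MvPolynomial.mem_support_iff.mpr hne
    have h1 := MvPolynomial.monomial_le_degreeOf v hm
    have hv : (1 - v : Fin 2) ≠ v := by fin_cases v <;> decide
    simp [Finsupp.add_apply, Finsupp.single_apply, hv] at h1
    omega

theorem phi0_ne {q : BC} (hq : q ≠ 0) : phi0 v q ≠ 0 := by
  intro h
  apply hq
  ext m
  rw [eq_split v m, ← phi0_coeff, h]
  simp

/-- the comparison homomorphism: the variable `v` becomes `t`, and `G` becomes `G t` -/
noncomputable def Phi : BC[X] →+* ℚ[X][X][X] :=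
  Polynomial.eval₂RingHom ((Polynomial.mapRingHom (C : ℚ[X] →+* ℚ[X][X])).comp (phi0 v))
    ((C (X : ℚ[X][X]) : ℚ[X][X][X]) * X)

theorem Phi_coeff (q : BC[X]) (D k : ℕ) :
    ((Phi v q).coeff D).coeff k = if k ≤ D then (phi0 v (q.coeff k)).coeff (D - k) else 0 := by
  induction q using Polynomial.induction_on' with
  | add p q hp hq =>
    rw [map_add, Polynomial.coeff_add, Polynomial.coeff_add, hp, hq, Polynomial.coeff_add, map_add]
    by_cases h : k ≤ D
    · simp [h]
    · simp [h]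
  | monomial n a =>
    have h1 : Phi v (Polynomial.monomial n a) =
        (phi0 v a).map C * (C (X ^ n) * X ^ n) := by
      have h0 : ((C (X : ℚ[X][X]) : ℚ[X][X][X]) * X) ^ n = C (X ^ n) * X ^ n := by
        rw [mul_pow (C (X : ℚ[X][X]) : ℚ[X][X][X]) X n, ← Polynomial.C_pow]
      simp only [Phi, Polynomial.coe_eval₂RingHom, Polynomial.eval₂_monomial, RingHom.comp_apply,
        Polynomial.coe_mapRingHom]
      rw [h0]
    rw [h1]
    have h2 : (phi0 v a).map (C : ℚ[X] →+* ℚ[X][X]) * (C (X ^ n) * X ^ n) =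
        (C (X ^ n) * (phi0 v a).map C) * X ^ n := by ring
    rw [h2, Polynomial.coeff_mul_X_pow', Polynomial.coeff_monomial]
    by_cases h : n ≤ D
    · rw [if_pos h, Polynomial.coeff_C_mul, Polynomial.coeff_map, mul_comm,
        Polynomial.coeff_C_mul, Polynomial.coeff_X_pow]
      by_cases h3 : k = n
      · subst h3
        simp [h]
      · have h4 : ¬ (n = k) := fun h' => h3 h'.symm
        simp [h3, h4]
    · rw [if_neg h, Polynomial.coeff_zero]
      by_cases h3 : n = k
      · subst h3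
        rw [if_neg h]
      · rw [if_neg h3]
        simp

end hom

/-! ### top coefficients -/

theorem map_binom {A B : Type*} [CommRing A] [Algebra ℚ A] [CommRing B] [Algebra ℚ B]
    (f : A →+* B) (x : A) (s : ℕ) : f (binom x s) = binom (f x) s := by
  unfold binom
  rw [map_mul, map_prod, RingHom.map_rat_algebraMap]
  simp

theorem binom_top {R : Type*} [CommRing R] [Algebra ℚ R] (y : R[X]) (D s : ℕ) (hD : 1 ≤ D)
    (hy : y.natDegree ≤ D) :
    (binom y s).natDegree ≤ s * D ∧
      (binom y s).coeff (s * D) = algebraMap ℚ R (1 / (s.factorial : ℚ)) * y.coeff D ^ s := by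
  have hprod : ∀ s : ℕ, (∏ i ∈ Finset.range s, (y - (i : R[X]))).natDegree ≤ s * D ∧
      (∏ i ∈ Finset.range s, (y - (i : R[X]))).coeff (s * D) = y.coeff D ^ s := by
    intro s
    induction s with
    | zero => simp
    | succ s ih =>
      rw [Finset.prod_range_succ]
      have h1 : (y - (s : R[X])).natDegree ≤ D := by
        refine (Polynomial.natDegree_sub_le _ _).trans ?_
        rw [Polynomial.natDegree_natCast]
        omega
      have h2 : (y - (s : R[X])).coeff D = y.coeff D := by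
        rw [Polynomial.coeff_sub, Polynomial.coeff_natCast_ite, if_neg (by omega)]
        simp
      refine ⟨?_, ?_⟩
      · refine Polynomial.natDegree_mul_le.trans ?_
        have := ih.1
        rw [Nat.succ_mul]
        omega
      · rw [Nat.succ_mul, Polynomial.coeff_mul_add_eq_of_natDegree_le ih.1 h1, ih.2, h2, pow_succ]
  obtain ⟨h1, h2⟩ := hprod s
  have hC : algebraMap ℚ R[X] (1 / (s.factorial : ℚ)) =
      C (algebraMap ℚ R (1 / (s.factorial : ℚ))) := rfl
  unfold binom
  rw [hC]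
  refine ⟨?_, ?_⟩
  · exact (Polynomial.natDegree_C_mul_le _ _).trans h1
  · rw [Polynomial.coeff_C_mul, h2]

theorem prod_top {R : Type*} [CommRing R] {ι : Type*} (S : Finset ι) (f : ι → R[X]) (d : ι → ℕ)
    (h : ∀ i ∈ S, (f i).natDegree ≤ d i) :
    (∏ i ∈ S, f i).natDegree ≤ ∑ i ∈ S, d i ∧
      (∏ i ∈ S, f i).coeff (∑ i ∈ S, d i) = ∏ i ∈ S, (f i).coeff (d i) := by
  classical
  induction S using Finset.induction_on with
  | empty => simp
  | insert a S ha ih =>
    obtain ⟨h1, h2⟩ := ih (fun i hi => h i (Finset.mem_insert_of_mem hi))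
    have h3 := h a (Finset.mem_insert_self a S)
    rw [Finset.prod_insert ha, Finset.sum_insert ha, Finset.prod_insert ha]
    refine ⟨?_, ?_⟩
    · refine Polynomial.natDegree_mul_le.trans ?_
      omega
    · rw [Polynomial.coeff_mul_add_eq_of_natDegree_le h3 h1, h2]

/-- the leading coefficient of a polynomial that is nonnegative at the positive integers -/
theorem top_nonneg (p : ℚ[X]) (h : ∀ b : ℕ, 1 ≤ b → 0 ≤ p.eval (b : ℚ)) : 0 ≤ p.leadingCoeff := by
  by_contra hneg
  push Not at hneg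
  by_cases hdeg : 0 < p.degree
  · have ht := Polynomial.tendsto_atBot_of_leadingCoeff_nonpos p hdeg hneg.le
    have ht2 := ht.comp (tendsto_natCast_atTop_atTop (R := ℚ))
    have h1 := (ht2.eventually (Filter.eventually_lt_atBot (0 : ℚ))).and
      (Filter.eventually_ge_atTop 1)
    obtain ⟨b, hb1, hb2⟩ := h1.exists
    have := h b hb2
    simp only [Function.comp_apply] at hb1
    linarith
  · have hc : p = C (p.coeff 0) := Polynomial.eq_C_of_degree_le_zero (not_lt.mp hdeg)
    have h1 := h 1 le_rfl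
    rw [hc] at h1 hneg
    simp at h1 hneg
    linarith

theorem exists_seq (l k : ℕ) (hk : 1 ≤ k) (hkl : k ≤ l) :
    ∃ s : Fin l → ℕ, s ∈ seqs l ∧ ∑ j, s j = k := by
  have h0 : 0 < l := by omega
  have h1 : l - k < l := by omega
  refine ⟨fun j => (if j = ⟨0, h0⟩ then k - 1 else 0) + (if j = ⟨l - k, h1⟩ then 1 else 0), ?_, ?_⟩
  · rw [mem_seqs]
    simp only [mul_add, mul_ite, mul_zero, mul_one, Finset.sum_add_distrib, Finset.sum_ite_eq',
      Finset.mem_univ, if_true]
    omega
  · simp only [Finset.sum_add_distrib, Finset.sum_ite_eq', Finset.mem_univ, if_true]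
    omega

theorem eval_phi0 (v : Fin 2) (q : BC) (x y : ℚ) :
    ((phi0 v q).map (Polynomial.evalRingHom y)).eval x =
      MvPolynomial.eval (fun i => if i = v then x else y) q := by
  have h : ((Polynomial.evalRingHom x).comp
      ((Polynomial.mapRingHom (Polynomial.evalRingHom y)).comp (phi0 v))) =
      MvPolynomial.eval (fun i => if i = v then x else y) := by
    apply MvPolynomial.ringHom_ext
    · intro r
      simp [phi0]
    · intro i
      by_cases hi : i = v
      · simp [phi0, hi]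
      · simp [phi0, hi]
  exact DFunLike.congr_fun h q

theorem term_coeff {l : ℕ} (u : Fin l → ℚ[X]) (s : Fin l → ℕ) (k : ℕ) :
    (∏ j, algebraMap ℚ ℚ[X][X] (1 / ((s j).factorial : ℚ)) * (X * C (u j)) ^ (s j)).coeff k =
      if k = ∑ j, s j then ∏ j, C (1 / ((s j).factorial : ℚ)) * (u j) ^ (s j) else 0 := by
  have h1 : (∏ j, algebraMap ℚ ℚ[X][X] (1 / ((s j).factorial : ℚ)) * (X * C (u j)) ^ (s j)) =
      C (∏ j, C (1 / ((s j).factorial : ℚ)) * (u j) ^ (s j)) * X ^ (∑ j, s j) := by
    rw [← Finset.prod_pow_eq_pow_sum, map_prod, ← Finset.prod_mul_distrib]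
    apply Finset.prod_congr rfl
    intro j _
    have hC : algebraMap ℚ ℚ[X][X] (1 / ((s j).factorial : ℚ)) =
      C (C (1 / ((s j).factorial : ℚ))) := rfl
    rw [hC, mul_pow, C_mul, C_pow]
    ring
  rw [h1, Polynomial.coeff_C_mul, Polynomial.coeff_X_pow]
  by_cases h : k = ∑ j, s j
  · simp [h]
  · simp [h]

/-- the degree in the variable `v` -/
theorem main (v : Fin 2) (U : ℕ → ℕ → BC) (hU : Known U) (n₁ n₂ : ℕ) (hn₁ : 1 ≤ n₁)
    (hn₂ : 1 ≤ n₂) (k : ℕ) (hk : 1 ≤ k) (hkl : k ≤ Nat.gcd n₁ n₂) :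
    (T U n₁ n₂).coeff k ≠ 0 ∧
      ((T U n₁ n₂).coeff k).degreeOf v = (if v = 0 then n₂ else n₁) - k := by
  set l := Nat.gcd n₁ n₂ with hl
  set nv := (if v = 0 then n₂ else n₁) with hnv
  set M := nv / l with hM
  have hl1 : 1 ≤ l := le_trans hk hkl
  have hd1 : l ∣ n₁ := Nat.gcd_dvd_left _ _
  have hd2 : l ∣ n₂ := Nat.gcd_dvd_right _ _
  have hdv : l ∣ nv := by
    rw [hnv]
    split_ifs
    · exact hd2
    · exact hd1
  have hnv1 : 1 ≤ nv := by
    rw [hnv]
    split_ifs
    · exact hn₂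
    · exact hn₁
  have hlM : l * M = nv := Nat.mul_div_cancel' hdv
  have hlnv : l ≤ nv := Nat.le_of_dvd hnv1 hdv
  have hM1 : 1 ≤ M := by
    rcases Nat.eq_zero_or_pos M with h | h
    · rw [h] at hlM
      omega
    · exact h
  have hm1 : 1 ≤ n₁ / l := Nat.div_pos (Nat.le_of_dvd hn₁ hd1) hl1
  have hm2 : 1 ≤ n₂ / l := Nat.div_pos (Nat.le_of_dvd hn₂ hd2) hl1
  set W : Fin l → BC := fun j => U (((j : ℕ) + 1) * (n₁ / l)) (((j : ℕ) + 1) * (n₂ / l)) with hW
  have hp1 : ∀ j : Fin l, 1 ≤ ((j : ℕ) + 1) * (n₁ / l) := fun j =>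
    Nat.mul_pos (Nat.succ_pos _) hm1
  have hp2 : ∀ j : Fin l, 1 ≤ ((j : ℕ) + 1) * (n₂ / l) := fun j =>
    Nat.mul_pos (Nat.succ_pos _) hm2
  have hMj : ∀ j : Fin l, 1 ≤ ((j : ℕ) + 1) * M := fun j => Nat.mul_pos (Nat.succ_pos _) hM1
  have hdegW : ∀ j : Fin l, (phi0 v (W j)).natDegree = ((j : ℕ) + 1) * M - 1 := by
    intro j
    rw [← degreeOf_eq]
    have hv : v = 0 ∨ v = 1 := by fin_cases v <;> simp
    rcases hv with rfl | rfl
    · rw [hM, hnv, if_pos rfl]
      exact hU.degb _ _ (hp1 j) (hp2 j)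
    · rw [hM, hnv, if_neg (by decide)]
      exact hU.degc _ _ (hp1 j) (hp2 j)
  set u : Fin l → ℚ[X] := fun j => (phi0 v (W j)).leadingCoeff with hu
  have hu0 : ∀ j, u j ≠ 0 := by
    intro j
    rw [hu]
    exact Polynomial.leadingCoeff_ne_zero.mpr (phi0_ne v (hU.ne _ _ (hp1 j) (hp2 j)))
  -- the images of `G U_j`
  have hy : ∀ j : Fin l, (Phi v (X * C (W j))).natDegree ≤ ((j : ℕ) + 1) * M ∧
      (Phi v (X * C (W j))).coeff (((j : ℕ) + 1) * M) = X * C (u j) := by
    intro j
    have h1 : Phi v (X * C (W j)) =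
        C (X : ℚ[X][X]) * ((phi0 v (W j)).map (C : ℚ[X] →+* ℚ[X][X]) * X) := by
      simp [Phi]
      ring
    have hd := hdegW j
    have hj := hMj j
    rw [h1]
    refine ⟨?_, ?_⟩
    · refine (Polynomial.natDegree_C_mul_le _ _).trans (Polynomial.natDegree_mul_le.trans ?_)
      have := Polynomial.natDegree_map_le (f := (C : ℚ[X] →+* ℚ[X][X])) (p := phi0 v (W j))
      rw [Polynomial.natDegree_X]
      omega
    · obtain ⟨e, he⟩ : ∃ e, ((j : ℕ) + 1) * M = e + 1 := ⟨((j : ℕ) + 1) * M - 1, by omega⟩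
      rw [he, Polynomial.coeff_C_mul, Polynomial.coeff_mul_X, Polynomial.coeff_map, hu]
      have he2 : e = (phi0 v (W j)).natDegree := by omega
      rw [he2]
      rfl
  have hPhiT : Phi v (T U n₁ n₂) =
      ∑ s ∈ seqs l, ∏ j : Fin l, binom (Phi v (X * C (W j))) (s j) := by
    unfold T
    rw [map_sum]
    apply Finset.sum_congr rfl
    intro s _
    rw [map_prod]
    apply Finset.prod_congr rfl
    intro j _
    exact map_binom (A := BC[X]) (B := ℚ[X][X][X]) (Phi v) _ _
  have hterm : ∀ s ∈ seqs l,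
      (∏ j : Fin l, binom (Phi v (X * C (W j))) (s j)).natDegree ≤ nv ∧
      (∏ j : Fin l, binom (Phi v (X * C (W j))) (s j)).coeff nv =
        ∏ j, algebraMap ℚ ℚ[X][X] (1 / ((s j).factorial : ℚ)) * (X * C (u j)) ^ (s j) := by
    intro s hs
    rw [mem_seqs] at hs
    have hb := fun j : Fin l => binom_top (Phi v (X * C (W j))) _ (s j) (hMj j) (hy j).1
    have hsum : ∑ j : Fin l, s j * (((j : ℕ) + 1) * M) = nv := by
      calc ∑ j : Fin l, s j * (((j : ℕ) + 1) * M)
          = (∑ j : Fin l, ((j : ℕ) + 1) * s j) * M := by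
            rw [Finset.sum_mul]
            apply Finset.sum_congr rfl
            intro j _
            ring
        _ = nv := by rw [hs, hlM]
    obtain ⟨h1, h2⟩ := prod_top Finset.univ
      (fun j : Fin l => binom (Phi v (X * C (W j))) (s j)) (fun j => s j * (((j : ℕ) + 1) * M))
      (fun j _ => (hb j).1)
    rw [hsum] at h1 h2
    refine ⟨h1, ?_⟩
    rw [h2]
    apply Finset.prod_congr rfl
    intro j _
    rw [(hb j).2, (hy j).2]
  have hdegT : (Phi v (T U n₁ n₂)).natDegree ≤ nv := by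
    rw [hPhiT]
    apply Polynomial.natDegree_sum_le_of_forall_le
    exact fun s hs => (hterm s hs).1
  -- a good value of the other variable
  obtain ⟨c, hc1, hc⟩ : ∃ c : ℕ, 1 ≤ c ∧ (∏ j, u j).eval (c : ℚ) ≠ 0 := by
    by_contra hcon
    push Not at hcon
    have hP : (∏ j, u j) ≠ 0 := Finset.prod_ne_zero_iff.mpr (fun j _ => hu0 j)
    apply hP
    apply Polynomial.eq_zero_of_infinite_isRoot
    have hinj : Function.Injective (fun n : ℕ => ((n + 1 : ℕ) : ℚ)) := by
      intro a b hab
      have hab' : ((a + 1 : ℕ) : ℚ) = ((b + 1 : ℕ) : ℚ) := hab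
      have : (a + 1 : ℕ) = b + 1 := by exact_mod_cast hab'
      omega
    refine (Set.infinite_range_of_injective hinj).mono ?_
    rintro _ ⟨n, rfl⟩
    exact hcon (n + 1) (by omega)
  have hupos : ∀ j, 0 < (u j).eval (c : ℚ) := by
    intro j
    have hne : (u j).eval (c : ℚ) ≠ 0 := by
      intro h0
      apply hc
      rw [Polynomial.eval_prod]
      exact Finset.prod_eq_zero (Finset.mem_univ j) h0
    refine lt_of_le_of_ne ?_ hne.symm
    have hlead : ((phi0 v (W j)).map (Polynomial.evalRingHom (c : ℚ))).leadingCoeff =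
        (u j).eval (c : ℚ) := by
      rw [Polynomial.leadingCoeff_map_of_leadingCoeff_ne_zero]
      · rfl
      · exact hne
    rw [← hlead]
    apply top_nonneg
    intro b hb
    rw [eval_phi0]
    have hv : v = 0 ∨ v = 1 := by fin_cases v <;> simp
    rcases hv with rfl | rfl
    · have h3 := hU.nonneg _ _ (hp1 j) (hp2 j) b c hb hc1
      have h4 : (fun i : Fin 2 => if i = 0 then (b : ℚ) else (c : ℚ)) = ![(b : ℚ), (c : ℚ)] := by
        funext i
        fin_cases i <;> simp
      rw [h4]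
      exact h3
    · have h3 := hU.nonneg _ _ (hp1 j) (hp2 j) c b hc1 hb
      have h4 : (fun i : Fin 2 => if i = 1 then (b : ℚ) else (c : ℚ)) = ![(c : ℚ), (b : ℚ)] := by
        funext i
        fin_cases i <;> simp
      rw [h4]
      exact h3
  -- the top coefficient
  have htop : ((Phi v (T U n₁ n₂)).coeff nv).coeff k ≠ 0 := by
    intro h0
    have h1 : (((Phi v (T U n₁ n₂)).coeff nv).coeff k).eval (c : ℚ) = 0 := by
      rw [h0, Polynomial.eval_zero]
    rw [hPhiT, Polynomial.finsetSum_coeff, Polynomial.finsetSum_coeff,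
      Polynomial.eval_finsetSum] at h1
    have hval : ∀ s ∈ seqs l,
        (((∏ j : Fin l, binom (Phi v (X * C (W j))) (s j)).coeff nv).coeff k).eval (c : ℚ) =
        if k = ∑ j, s j then ∏ j, (1 / ((s j).factorial : ℚ)) * ((u j).eval (c : ℚ)) ^ (s j)
        else 0 := by
      intro s hs
      rw [(hterm s hs).2, term_coeff]
      split_ifs
      · rw [Polynomial.eval_prod]
        simp
      · simp
    have hterm_pos : ∀ s : Fin l → ℕ,
        0 < ∏ j, (1 / ((s j).factorial : ℚ)) * ((u j).eval (c : ℚ)) ^ (s j) := by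
      intro s
      apply Finset.prod_pos
      intro j _
      have := hupos j
      positivity
    obtain ⟨s, hs, hsk⟩ := exists_seq l k hk hkl
    have h2 : 0 < ∑ s ∈ seqs l,
        (((∏ j : Fin l, binom (Phi v (X * C (W j))) (s j)).coeff nv).coeff k).eval (c : ℚ) := by
      apply Finset.sum_pos'
      · intro s hs
        rw [hval s hs]
        split_ifs
        · exact (hterm_pos s).le
        · exact le_rfl
      · refine ⟨s, hs, ?_⟩
        rw [hval s hs, if_pos hsk.symm]
        exact hterm_pos s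
    linarith
  have hk_nv : k ≤ nv := hkl.trans hlnv
  have hcoef : (phi0 v ((T U n₁ n₂).coeff k)).coeff (nv - k) ≠ 0 := by
    intro h0
    apply htop
    rw [Phi_coeff, if_pos hk_nv]
    exact h0
  refine ⟨?_, ?_⟩
  · intro h0
    apply hcoef
    rw [h0, map_zero, Polynomial.coeff_zero]
  · rw [degreeOf_eq]
    apply le_antisymm
    · rw [Polynomial.natDegree_le_iff_coeff_eq_zero]
      intro d hd
      have h1 := Phi_coeff v (T U n₁ n₂) (d + k) k
      rw [if_pos (by omega), Nat.add_sub_cancel,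
        Polynomial.coeff_eq_zero_of_natDegree_lt (lt_of_le_of_lt hdegT (by omega)),
        Polynomial.coeff_zero] at h1
      exact h1.symm
    · exact Polynomial.le_natDegree_of_ne_zero hcoef

/-- **Exact degrees.** Let `U_n(c, b)` be polynomials having the properties known for the exponents
of rank 2 cluster scattering diagrams. Then for all `n₁, n₂ ≥ 1` and `1 ≤ k ≤ gcd(n₁, n₂)` the
coefficient `τ(n; k)` of `G^k` in `T_n` is nonzero, has degree exactly `n₂ - k` in `b` and degree
exactly `n₁ - k` in `c`. -/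
theorem result (U : ℕ → ℕ → BC) (hU : Known U) (n₁ n₂ : ℕ) (hn₁ : 1 ≤ n₁) (hn₂ : 1 ≤ n₂)
    (k : ℕ) (hk : 1 ≤ k) (hkl : k ≤ Nat.gcd n₁ n₂) :
    (T U n₁ n₂).coeff k ≠ 0 ∧
    ((T U n₁ n₂).coeff k).degreeOf 0 = n₂ - k ∧
    ((T U n₁ n₂).coeff k).degreeOf 1 = n₁ - k := by
  have h0 := main 0 U hU n₁ n₂ hn₁ hn₂ k hk hkl
  have h1 := main 1 U hU n₁ n₂ hn₁ hn₂ k hk hkl
  rw [if_pos rfl] at h0
  rw [if_neg (by decide)] at h1
  exact ⟨h0.1, h0.2, h1.2⟩

end Pool.Agent.Results.MP_af966c_co.ExactDegrees
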